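import Mathlib

set_option autoImplicit false

open MeasureTheory Metric Set Filter Topology
open scoped Convolution

namespace Pool.Agent.W792.MollRay

/-- The Euclidean plane. -/
abbrev P2 : Type := EuclideanSpace ℝ (Fin 2)

/-- a sequence of bumps whose supports shrink to the origin -/
noncomputable def bmp (k : ℕ) : ContDiffBump (0 : P2) where
  rIn := 1 / ((k : ℝ) + 1)
  rOut := 2 / ((k : ℝ) + 1)
  rIn_pos := by positivity
  rIn_lt_rOut := by
    have : (0 : ℝ) < (k : ℝ) + 1 := by positivity
    exact div_lt_div_of_pos_right (by norm_num) this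

/-- mollification -/
noncomputable def mo (k : ℕ) (u : P2 → ℝ) : P2 → ℝ :=
  ((bmp k).normed volume ⋆[ContinuousLinearMap.lsmul ℝ ℝ, volume] u)

theorem rOut_tendsto : Tendsto (fun k => (bmp k).rOut) atTop (𝓝 0) := by
  have h := (tendsto_one_div_add_atTop_nhds_zero_nat (𝕜 := ℝ)).const_mul 2
  rw [mul_zero] at h
  refine h.congr (fun k => ?_)
  show 2 * (1 / ((k : ℝ) + 1)) = 2 / ((k : ℝ) + 1)
  ring

theorem mo_contDiff (k : ℕ) {u : P2 → ℝ} (hu : Continuous u) :
    ContDiff ℝ (⊤ : ℕ∞) (mo k u) :=
  (bmp k).hasCompactSupport_normed.contDiff_convolution_left _ (bmp k).contDiff_normed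
    hu.locallyIntegrable

theorem mo_hcs (k : ℕ) {u : P2 → ℝ} (hu : HasCompactSupport u) : HasCompactSupport (mo k u) :=
  HasCompactSupport.convolution _ (bmp k).hasCompactSupport_normed hu

theorem mo_support (k : ℕ) (u : P2 → ℝ) :
    Function.support (mo k u) ⊆ cthickening ((bmp k).rOut) (tsupport u) := by
  intro x hx
  have h1 := support_convolution_subset (ContinuousLinearMap.lsmul ℝ ℝ) (μ := volume)
    (f := (bmp k).normed volume) (g := u) hx
  obtain ⟨a, ha, b, hb, rfl⟩ := h1
  rw [(bmp k).support_normed_eq] at ha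
  rw [mem_ball_zero_iff] at ha
  refine mem_cthickening_of_dist_le (a + b) b _ _ (subset_tsupport _ hb) ?_
  rw [dist_eq_norm, add_sub_cancel_right]
  exact ha.le

theorem fderiv_mo (k : ℕ) {u : P2 → ℝ} (hu : ContDiff ℝ 1 u) (hc : HasCompactSupport u) (x : P2) :
    fderiv ℝ (mo k u) x =
      ((bmp k).normed volume ⋆[ContinuousLinearMap.lsmul ℝ ℝ, volume] (fderiv ℝ u)) x := by
  have hρ : LocallyIntegrable ((bmp k).normed volume) (volume : Measure P2) :=
    (bmp k).continuous_normed.locallyIntegrable
  have h := hc.hasFDerivAt_convolution_right (ContinuousLinearMap.lsmul ℝ ℝ) hρ hu x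
  show fderiv ℝ ((bmp k).normed volume ⋆[ContinuousLinearMap.lsmul ℝ ℝ, volume] u) x = _
  rw [h.fderiv]
  unfold MeasureTheory.convolution
  refine integral_congr_ae (Eventually.of_forall fun y => ?_)
  ext v
  rfl

theorem mo_tendsto {u : P2 → ℝ} (hu : Continuous u) (x : P2) :
    Tendsto (fun k => mo k u x) atTop (𝓝 (u x)) :=
  ContDiffBump.convolution_tendsto_right_of_continuous rOut_tendsto hu x

theorem fderiv_tendsto {u : P2 → ℝ} (hu : ContDiff ℝ 1 u) (hc : HasCompactSupport u) (x : P2) :
    Tendsto (fun k => fderiv ℝ (mo k u) x) atTop (𝓝 (fderiv ℝ u x)) := by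
  have h := ContDiffBump.convolution_tendsto_right_of_continuous (φ := bmp) rOut_tendsto
    (hu.continuous_fderiv (by norm_num)) x (μ := (volume : Measure P2))
  refine h.congr fun k => ?_
  rw [fderiv_mo k hu hc x]

theorem conv_bound {E : Type*} [NormedAddCommGroup E] [NormedSpace ℝ E] [CompleteSpace E] (k : ℕ)
    {g : P2 → E} {M : ℝ} (hM : ∀ x, ‖g x‖ ≤ M) (x : P2) :
    ‖((bmp k).normed volume ⋆[ContinuousLinearMap.lsmul ℝ ℝ, volume] g) x‖ ≤ M := by
  unfold MeasureTheory.convolution
  have h1 : Integrable (fun t => (bmp k).normed volume t * M) := (bmp k).integrable_normed.mul_const M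
  have h2 : ∫ t, (bmp k).normed volume t * M = M := by
    rw [integral_mul_const, (bmp k).integral_normed, one_mul]
  calc ‖∫ t, (ContinuousLinearMap.lsmul ℝ ℝ) ((bmp k).normed volume t) (g (x - t))‖
      ≤ ∫ t, (bmp k).normed volume t * M := by
        refine norm_integral_le_of_norm_le h1 (Eventually.of_forall fun t => ?_)
        simp only [ContinuousLinearMap.lsmul_apply, norm_smul]
        rw [Real.norm_of_nonneg ((bmp k).nonneg_normed t)]
        exact mul_le_mul_of_nonneg_left (hM _) ((bmp k).nonneg_normed t)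
    _ = M := h2

/-- The Rayleigh quotients of the mollifications converge. -/
theorem rayleigh_tendsto {u : P2 → ℝ} (hu : ContDiff ℝ 1 u) (hc : HasCompactSupport u) (hne : u ≠ 0) :
    Tendsto (fun k => (∫ x, ‖fderiv ℝ (mo k u) x‖ ^ 2) / (∫ x, (mo k u x) ^ 2)) atTop
      (𝓝 ((∫ x, ‖fderiv ℝ u x‖ ^ 2) / (∫ x, (u x) ^ 2))) := by
  obtain ⟨M, hM⟩ := hc.exists_bound_of_continuous hu.continuous
  obtain ⟨M', hM'⟩ := (hc.fderiv ℝ).exists_bound_of_continuous (hu.continuous_fderiv (by norm_num))
  set K : Set P2 := cthickening 2 (tsupport u) with hK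
  have hKc : IsCompact K := hc.isCompact.cthickening
  have hsub : ∀ k, tsupport (mo k u) ⊆ K := by
    intro k
    refine closure_minimal ?_ isClosed_cthickening
    refine (mo_support k u).trans (cthickening_mono ?_ _)
    show 2 / ((k : ℝ) + 1) ≤ 2
    rw [div_le_iff₀ (by positivity)]
    have : (0 : ℝ) ≤ k := Nat.cast_nonneg k
    linarith
  have hKm : MeasurableSet K := isClosed_cthickening.measurableSet
  have hKf : volume K ≠ ⊤ := hKc.measure_lt_top.ne
  have hA : Tendsto (fun k => ∫ x, (mo k u x) ^ 2) atTop (𝓝 (∫ x, (u x) ^ 2)) := by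
    refine tendsto_integral_of_dominated_convergence (K.indicator fun _ => M ^ 2) ?_ ?_ ?_ ?_
    · intro k
      exact ((mo_contDiff k hu.continuous).continuous.pow 2).aestronglyMeasurable
    · exact (integrable_indicator_iff hKm).2 (integrableOn_const hKf)
    · intro k
      refine Eventually.of_forall fun x => ?_
      by_cases hx : x ∈ K
      · rw [indicator_of_mem hx, norm_pow]
        have h1 : ‖mo k u x‖ ≤ M := conv_bound k hM x
        exact pow_le_pow_left₀ (norm_nonneg _) h1 2
      · have : mo k u x = 0 := by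
          by_contra h0
          exact hx (hsub k (subset_tsupport _ h0))
        rw [this, indicator_of_notMem hx]
        simp
    · exact Eventually.of_forall fun x => (mo_tendsto hu.continuous x).pow 2
  have hB : Tendsto (fun k => ∫ x, ‖fderiv ℝ (mo k u) x‖ ^ 2) atTop
      (𝓝 (∫ x, ‖fderiv ℝ u x‖ ^ 2)) := by
    refine tendsto_integral_of_dominated_convergence (K.indicator fun _ => M' ^ 2) ?_ ?_ ?_ ?_
    · intro k
      exact (((mo_contDiff k hu.continuous).continuous_fderiv (by simp)).norm.pow
        2).aestronglyMeasurable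
    · exact (integrable_indicator_iff hKm).2 (integrableOn_const hKf)
    · intro k
      refine Eventually.of_forall fun x => ?_
      by_cases hx : x ∈ K
      · rw [indicator_of_mem hx, norm_pow, norm_norm, fderiv_mo k hu hc x]
        exact pow_le_pow_left₀ (norm_nonneg _) (conv_bound k hM' x) 2
      · have : fderiv ℝ (mo k u) x = 0 := by
          by_contra h0
          exact hx (hsub k ((support_fderiv_subset ℝ) h0))
        rw [this, indicator_of_notMem hx]
        simp
    · exact Eventually.of_forall fun x => ((fderiv_tendsto hu hc x).norm).pow 2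
  refine hB.div hA ?_
  have hpos : 0 < ∫ x, (u x) ^ 2 := by
    obtain ⟨x, hx⟩ := Function.ne_iff.1 hne
    refine Continuous.integral_pos_of_hasCompactSupport_nonneg_nonzero (hu.continuous.pow 2) ?_
      (fun x => sq_nonneg _) (x := x) (pow_ne_zero 2 hx)
    exact hc.comp_left (g := fun t : ℝ => t ^ 2) (by norm_num)
  exact hpos.ne'

/-- mollifications of a test function are eventually supported in the open set -/
theorem tsupport_eventually {u : P2 → ℝ} (hc : HasCompactSupport u) {U : Set P2} (hU : IsOpen U)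
    (hs : tsupport u ⊆ U) : ∀ᶠ k in atTop, tsupport (mo k u) ⊆ U := by
  obtain ⟨δ, hδ, hδ2⟩ := hc.isCompact.exists_cthickening_subset_open hU hs
  have h := rOut_tendsto.eventually (gt_mem_nhds hδ)
  filter_upwards [h] with k hk
  refine (closure_minimal (mo_support k u) isClosed_cthickening).trans ?_
  exact (cthickening_mono hk.le _).trans hδ2

/-- mollifications are eventually nonzero -/
theorem ne_eventually {u : P2 → ℝ} (hu : Continuous u) (hne : u ≠ 0) :
    ∀ᶠ k in atTop, ∃ x, mo k u x ≠ 0 := by
  obtain ⟨x, hx⟩ := Function.ne_iff.1 hne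
  filter_upwards [(mo_tendsto hu x).eventually_ne hx] with k hk
  exact ⟨x, hk⟩

end Pool.Agent.W792.MollRay
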